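import Pool.Agent.H487.GA.Stm
import Pool.Agent.H477.Jen.XiInst

set_option autoImplicit false

/-!
# Project GA (helper487): `S_G1`, the logarithmic derivative of `Ξ` at the distance 1 from the line (helper628)
-/

open Finset Complex Filter Topology Metric Set MeasureTheory

namespace Pool.Agent.H628.GA

open Pool.Agent.Helper242.KK (FT Ph)
open Pool.Agent.H477.Jen
open Pool.Agent.H477.E
open Pool.Agent.H487.GA

/-- the logarithmic derivative of zeta is bounded on vertical lines `re = 3/2` -/
theorem zlog_bound : ∃ A : ℝ, 0 ≤ A ∧ ∀ s : ℂ, s.re = 3 / 2 →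
    ‖deriv riemannZeta s / riemannZeta s‖ ≤ A := by
  set f : ℕ → ℂ := fun n => ((ArithmeticFunction.vonMangoldt n : ℝ) : ℂ) with hf
  refine ⟨∑' n : ℕ, ‖LSeries.term f (3 / 2 : ℂ) n‖, tsum_nonneg (fun n => norm_nonneg _), ?_⟩
  intro s hs
  have hs1 : 1 < s.re := by rw [hs]; norm_num
  have h1 := ArithmeticFunction.LSeries_vonMangoldt_eq_deriv_riemannZeta_div hs1
  have h2 : LSeriesSummable f (3 / 2 : ℂ) := by
    apply ArithmeticFunction.LSeriesSummable_vonMangoldt
    norm_num
  have e : deriv riemannZeta s / riemannZeta s = -(LSeries f s) := by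
    have : LSeries f s = -deriv riemannZeta s / riemannZeta s := h1
    rw [this]; ring
  rw [e, norm_neg]
  unfold LSeries
  refine tsum_of_norm_bounded (h2.norm).hasSum ?_
  intro n
  rw [LSeries.norm_term_eq, LSeries.norm_term_eq, hs]
  have : (3 / 2 : ℂ).re = 3 / 2 := by norm_num
  rw [this]

theorem g1_proof : S_G1 := by
  obtain ⟨A, hA0, hA⟩ := zlog_bound
  refine ⟨40 + A, 10, by linarith, le_refl _, ?_⟩
  intro T hT x hx1 hx2
  set z : ℂ := (x : ℂ) - I with hz
  set s : ℂ := 3 / 2 + I * x with hs
  have hT0 : 0 < T := by linarith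
  have hx0 : 0 < x := by linarith
  have hsre : s.re = 3 / 2 := by simp [hs]
  have hsim : s.im = x := by simp [hs]
  have hs1 : s ≠ 1 := by
    intro h
    have := congrArg Complex.re h
    rw [hsre] at this
    norm_num at this
  have hsz : s = 1 / 2 + I * z := by
    rw [hs, hz]
    have hI := Complex.I_mul_I
    linear_combination hI
  have hspos : 0 < s.re := by rw [hsre]; norm_num
  -- the derivative
  have hev : FT Ph =ᶠ[𝓝 z] fun w => HR (1 / 2 + I * w) * riemannZeta (1 / 2 + I * w) := by
    have hc : ContinuousAt (fun w : ℂ => (1 / 2 + I * w)) z := by fun_prop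
    have h1 : ∀ᶠ w in 𝓝 z, 0 < ((1 / 2 + I * w : ℂ)).re := by
      have : ContinuousAt (fun w : ℂ => (1 / 2 + I * w : ℂ).re) z := by fun_prop
      apply this.eventually_const_lt
      show 0 < (1 / 2 + I * z : ℂ).re
      rw [← hsz]; exact hspos
    have h2 : ∀ᶠ w in 𝓝 z, (1 / 2 + I * w : ℂ) ≠ 1 := by
      apply hc.eventually_ne
      rw [← hsz]; exact hs1
    filter_upwards [h1, h2] with w hw1 hw2
    exact FT_Ph_eq rfl hw1 hw2
  have hR : HasDerivAt (fun w : ℂ => HR (1 / 2 + I * w)) (LR s * HR s * I) z := by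
    have h1 : HasDerivAt HR (LR s * HR s) (1 / 2 + I * z) := by
      rw [← hsz]; exact hasDerivAt_HR hspos hs1
    have h2 : HasDerivAt (fun w : ℂ => (1 / 2 + I * w : ℂ)) I z := by
      simpa using ((hasDerivAt_id z).const_mul I).const_add (1 / 2 : ℂ)
    exact h1.comp z h2
  have hZ : HasDerivAt (fun w : ℂ => riemannZeta (1 / 2 + I * w)) (deriv riemannZeta s * I) z := by
    have h1 : HasDerivAt riemannZeta (deriv riemannZeta s) (1 / 2 + I * z) := by
      rw [← hsz]; exact (differentiableAt_riemannZeta hs1).hasDerivAt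
    have h2 : HasDerivAt (fun w : ℂ => (1 / 2 + I * w : ℂ)) I z := by
      simpa using ((hasDerivAt_id z).const_mul I).const_add (1 / 2 : ℂ)
    exact h1.comp z h2
  have hz0 : riemannZeta s ≠ 0 := by
    apply riemannZeta_ne_zero_of_one_le_re
    rw [hsre]; norm_num
  have hH0 : HR s ≠ 0 := HR_ne hspos hs1
  have hval : FT Ph z = HR s * riemannZeta s := FT_Ph_eq hsz hspos hs1
  have hder : deriv (FT Ph) z = LR s * HR s * I * riemannZeta s + HR s * (deriv riemannZeta s * I) := by
    rw [hev.deriv_eq]
    have := (hR.mul hZ).deriv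
    rw [← hsz] at this
    exact this
  have hquot : deriv (FT Ph) z / FT Ph z = I * (LR s + deriv riemannZeta s / riemannZeta s) := by
    rw [hder, hval]
    field_simp
  -- the bound of LR
  have hLR : ‖LR s - lamR x‖ ≤ 34 / x := by
    have := LR_bound (s := s) (t := x) (v := 1) (by linarith) hspos (by rw [hsim]; linarith)
      (by
        have e : s - I * (x : ℂ) = (3 / 2 : ℂ) := by rw [hs]; ring
        rw [e]; norm_num)
    refine this.trans (le_of_eq ?_)
    norm_num
  have hLR2 : ‖LR s - lamR x‖ ≤ 34 / 5 := by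
    refine hLR.trans ?_
    apply div_le_div_of_nonneg_left (by norm_num) (by norm_num) (by linarith)
  -- lamR against lamT
  have hpi := Real.pi_pos
  have hlam : ‖lamR x - (lamT T : ℂ)‖ ≤ 2 := by
    have hre : (lamR x - (lamT T : ℂ)).re = 1 / 2 * (Real.log x - Real.log T) := by
      rw [Complex.sub_re, lamR_re hx0, Complex.ofReal_re]
      unfold lamT
      rw [Real.log_div hT0.ne' (by positivity)]
      ring
    have him : (lamR x - (lamT T : ℂ)).im = Real.pi / 4 := by
      rw [Complex.sub_im, lamR_im hx0, Complex.ofReal_im, sub_zero]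
    have hl1 : Real.log x - Real.log T ≤ 2 := by
      rw [← Real.log_div hx0.ne' hT0.ne']
      have h3 : x / T ≤ 3 := by rw [div_le_iff₀ hT0]; linarith
      have := Real.log_le_sub_one_of_pos (show 0 < x / T by positivity)
      linarith
    have hl2 : Real.log T - Real.log x ≤ 1 := by
      rw [← Real.log_div hT0.ne' hx0.ne']
      have h3 : T / x ≤ 2 := by rw [div_le_iff₀ hx0]; linarith
      have := Real.log_le_sub_one_of_pos (show 0 < T / x by positivity)
      linarith
    refine (Complex.norm_le_abs_re_add_abs_im _).trans ?_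
    rw [hre, him, abs_of_pos (by positivity : 0 < Real.pi / 4)]
    have : |1 / 2 * (Real.log x - Real.log T)| ≤ 1 := by
      rw [abs_le]; constructor <;> linarith
    have hp4 := Real.pi_le_four
    linarith
  have hsA := hA s hsre
  have key : deriv (FT Ph) z / FT Ph z - I * (lamT T : ℂ) =
      I * ((LR s - lamR x) + (lamR x - (lamT T : ℂ)) + deriv riemannZeta s / riemannZeta s) := by
    rw [hquot]; ring
  rw [key, norm_mul, Complex.norm_I, one_mul]
  have t1 := norm_add_le ((LR s - lamR x) + (lamR x - (lamT T : ℂ))) (deriv riemannZeta s / riemannZeta s)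
  have t2 := norm_add_le (LR s - lamR x) (lamR x - (lamT T : ℂ))
  linarith

end Pool.Agent.H628.GA
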