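import Pool.Agent.H487.GA.Stm
import Pool.Agent.H477.Jen.XiInst

set_option autoImplicit false

/-!
# Project GA (helper487): `S_CZ`, cones without zeros (helper628)
-/

open Finset Complex Filter Topology Metric Set MeasureTheory

namespace Pool.Agent.H628.GA

open Pool.Agent.Helper242.KK (FT Ph)
open Pool.Agent.H477.Jen
open Pool.Agent.H477.E
open Pool.Agent.H487.GA

/-- the multiplicity of a zero is at least one -/
theorem one_le_mz {s : ℂ} (h0 : riemannZeta s = 0) : 1 ≤ mz s := by
  have hs1 : s ≠ 1 := by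
    rintro rfl
    exact riemannZeta_ne_zero_of_one_le_re (by norm_num) h0
  have hA : AnalyticOnNhd ℂ riemannZeta {1}ᶜ := by
    apply DifferentiableOn.analyticOnNhd
    · intro w hw
      exact (differentiableAt_riemannZeta hw).differentiableWithinAt
    · exact isOpen_compl_singleton
  have hP : IsPreconnected ({1}ᶜ : Set ℂ) :=
    (isConnected_compl_singleton_of_one_lt_rank (by simp) 1).isPreconnected
  have hz : analyticOrderAt riemannZeta s ≠ 0 := by
    rw [(hA s hs1).analyticOrderAt_ne_zero]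
    exact h0
  have ht : analyticOrderAt riemannZeta s ≠ ⊤ := by
    intro htop
    rw [analyticOrderAt_eq_top] at htop
    have h := hA.eqOn_zero_of_preconnected_of_eventuallyEq_zero hP hs1 htop
    have h2 : riemannZeta 2 = 0 := h (by simp)
    exact riemannZeta_ne_zero_of_one_le_re (by norm_num) h2
  unfold mz analyticOrderNatAt
  rw [Nat.one_le_iff_ne_zero]
  intro h
  rcases ENat.toNat_eq_zero.1 h with h | h
  · exact hz h
  · exact ht h

theorem cz_proof : S_DENY → S_CZ := by
  rintro ⟨C, T0, hC, hT0, hD⟩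
  refine ⟨16 * C, T0, by linarith, hT0, ?_⟩
  intro T hT r hr0 hr1
  obtain ⟨hfin, hsum⟩ := hD T hT
  classical
  have hT10 : 10 ≤ T := hT0.trans hT
  have hlog : 0 < Real.log T := Real.log_pos (by linarith)
  set Z := hfin.toFinset with hZ
  set Zb := Z.filter (fun s => r / 4 ≤ |s.re - 1 / 2|) with hZb
  have hmem : ∀ s, s ∈ Z ↔ s ∈ ZI (T / 2) (3 * T) := fun s => hfin.mem_toFinset
  rw [finsum_mem_eq_finite_toFinset_sum _ hfin] at hsum
  refine ⟨⋃ s ∈ Zb, Icc (s.im - 2 * |s.re - 1 / 2|) (s.im + 2 * |s.re - 1 / 2|), ?_, ?_, ?_⟩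
  · exact Finset.measurableSet_biUnion _ (fun s _ => measurableSet_Icc)
  · refine (measure_biUnion_finset_le _ _).trans ?_
    have e1 : ∀ s ∈ Zb, volume (Icc (s.im - 2 * |s.re - 1 / 2|) (s.im + 2 * |s.re - 1 / 2|)) =
        ENNReal.ofReal (4 * |s.re - 1 / 2|) := by
      intro s _
      rw [Real.volume_Icc]
      congr 1
      ring
    rw [Finset.sum_congr rfl e1, ← ENNReal.ofReal_sum_of_nonneg (fun s _ => by positivity)]
    apply ENNReal.ofReal_le_ofReal
    have step : ∀ s ∈ Zb, 4 * |s.re - 1 / 2| ≤ 16 / r *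
        ((mz s : ℝ) * ((s.re - 1 / 2) ^ 2 * Real.exp (Real.log T * |s.re - 1 / 2| / 2))) := by
      intro s hs
      rw [hZb, Finset.mem_filter] at hs
      have hsZ := (hmem s).1 hs.1
      have hm : (1 : ℝ) ≤ (mz s : ℝ) := by exact_mod_cast one_le_mz hsZ.2.2.2.2
      have hb := hs.2
      have hb0 : 0 ≤ |s.re - 1 / 2| := abs_nonneg _
      have he : (1 : ℝ) ≤ Real.exp (Real.log T * |s.re - 1 / 2| / 2) :=
        Real.one_le_exp (by positivity)
      have hsq : (s.re - 1 / 2) ^ 2 = |s.re - 1 / 2| * |s.re - 1 / 2| := by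
        rw [← sq, sq_abs]
      have h1 : 4 * |s.re - 1 / 2| ≤ 16 / r * (|s.re - 1 / 2| * |s.re - 1 / 2|) := by
        have e : 16 / r * (|s.re - 1 / 2| * |s.re - 1 / 2|) =
            (16 * |s.re - 1 / 2|) * |s.re - 1 / 2| / r := by ring
        rw [e, le_div_iff₀ hr0]
        nlinarith
      refine h1.trans ?_
      apply mul_le_mul_of_nonneg_left _ (by positivity)
      rw [hsq]
      have h2 : 0 ≤ |s.re - 1 / 2| * |s.re - 1 / 2| := by positivity
      calc |s.re - 1 / 2| * |s.re - 1 / 2| = 1 * (|s.re - 1 / 2| * |s.re - 1 / 2| * 1) := by ring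
        _ ≤ (mz s : ℝ) * (|s.re - 1 / 2| * |s.re - 1 / 2| *
            Real.exp (Real.log T * |s.re - 1 / 2| / 2)) := by gcongr
    refine (Finset.sum_le_sum step).trans ?_
    rw [← Finset.mul_sum]
    have hsub : ∑ s ∈ Zb, (mz s : ℝ) * ((s.re - 1 / 2) ^ 2 *
        Real.exp (Real.log T * |s.re - 1 / 2| / 2)) ≤
        ∑ s ∈ Z, (mz s : ℝ) * ((s.re - 1 / 2) ^ 2 *
        Real.exp (Real.log T * |s.re - 1 / 2| / 2)) := by
      apply Finset.sum_le_sum_of_subset_of_nonneg (Finset.filter_subset _ _)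
      intro s _ _
      positivity
    have h3 := hsub.trans hsum
    calc 16 / r * ∑ s ∈ Zb, (mz s : ℝ) * ((s.re - 1 / 2) ^ 2 *
        Real.exp (Real.log T * |s.re - 1 / 2| / 2)) ≤ 16 / r * (C * T / Real.log T) :=
          mul_le_mul_of_nonneg_left h3 (by positivity)
      _ = 16 * C * T / (r * Real.log T) := by
          field_simp
  · intro t ht1 ht2 htB w hw hzero
    obtain ⟨hw1, hw2, hw3⟩ := hw
    set s : ℂ := 1 / 2 + I * w with hs
    have hsre : s.re = 1 / 2 - w.im := by simp [hs]; ring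
    have hsim : s.im = w.re := by simp [hs]
    have hy : 0 < -w.im := by linarith
    have hspos : 0 < s.re := by rw [hsre]; linarith
    have hwre := abs_le.1 hw3
    have hwre0 : 0 < w.re := by linarith
    have hs1 : s ≠ 1 := by
      intro h
      have := congrArg Complex.im h
      rw [hsim] at this
      simp at this
      linarith
    have hval : FT Ph w = HR s * riemannZeta s := FT_Ph_eq hs hspos hs1
    have hH0 : HR s ≠ 0 := HR_ne hspos hs1
    have hz : riemannZeta s = 0 := by
      rw [hval] at hzero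
      exact (mul_eq_zero.1 hzero).resolve_left hH0
    have hs_lt : s.re < 1 := by
      by_contra hcon
      push Not at hcon
      exact riemannZeta_ne_zero_of_one_le_re hcon hz
    have hsZI : s ∈ ZI (T / 2) (3 * T) := by
      refine ⟨hspos, hs_lt, ?_, ?_, hz⟩
      · rw [hsim]; linarith
      · rw [hsim]; linarith
    apply htB
    have hb : |s.re - 1 / 2| = -w.im := by
      rw [hsre]
      have : (1 / 2 - w.im - 1 / 2 : ℝ) = -w.im := by ring
      rw [this, abs_of_pos hy]
    rw [Set.mem_iUnion₂]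
    refine ⟨s, ?_, ?_⟩
    · rw [hZb, Finset.mem_filter]
      refine ⟨(hmem s).2 hsZI, ?_⟩
      rw [hb]; exact hw1
    · rw [hb, hsim, Set.mem_Icc]
      constructor <;> linarith

end Pool.Agent.H628.GA
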